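import Pool.Agent.Q176.DM.Neg

/-!
# Domatic number of graphs of bounded clique-width (MP_21a028_co)

For every `t ≥ 4` the class of graphs of clique-width at most `t` is not DOM-bounded: for every `d`
there is a graph of clique-width at most `4`, of minimum degree at least `d`, whose vertex set cannot
be partitioned into more than `3` dominating sets.
-/

set_option autoImplicit false

namespace Pool.Agent.Results.MP_21a028_co.CliqueWidthFour

open Pool.Agent.Q176.DM

/-- For `t ≥ 4` the class of graphs of clique-width at most `t` is not DOM-bounded; there are even
graphs of clique-width at most `t`, arbitrarily large minimum degree and domatic number at most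
`3`. -/
theorem result (t : ℕ) (ht : 4 ≤ t) :
    ¬ DOMBounded t ∧
    ∀ d : ℕ, ∃ (V : Type) (_ : Fintype V) (_ : Nonempty V) (G : SimpleGraph V),
      CliqueWidthLE t G ∧ (∀ v, d ≤ (G.neighborSet v).ncard) ∧ domaticNumber G ≤ 3 :=
  ⟨not_domBounded t ht, exists_graph t ht⟩

end Pool.Agent.Results.MP_21a028_co.CliqueWidthFour
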